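import Pool.Agent.MP_a43263_nt.GT.Sel.MajDef
import Mathlib.NumberTheory.EulerProduct.Basic
import Mathlib.NumberTheory.Harmonic.Bounds
import Mathlib.Data.Nat.Totient

/-! The lower bound for the normalising sum of the majorant. -/

set_option autoImplicit false

noncomputable section

namespace Pool.Agent.MP_a43263_nt.GT.Sel

open Finset

namespace GlH

/-- the completely multiplicative function `1 / n` -/
def rec1 : ℕ →* ℝ where
  toFun n := (n : ℝ)⁻¹
  map_one' := by simp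
  map_mul' m n := by push_cast; rw [mul_inv]

theorem sum_le (s : Finset ℕ) (hs : ∀ p ∈ s, p.Prime) (T : Finset ℕ)
    (hT : ∀ m ∈ T, m ∈ Nat.factoredNumbers s) :
    ∑ m ∈ T, (m : ℝ)⁻¹ ≤ ∏ p ∈ s, (1 - (p : ℝ)⁻¹)⁻¹ := by
  have h := (EulerProduct.summable_and_hasSum_factoredNumbers_prod_filter_prime_geometric
    (f := rec1) (fun {p} hp => by
      have : (1 : ℝ) < p := by exact_mod_cast hp.one_lt
      show ‖(p : ℝ)⁻¹‖ < 1
      rw [norm_inv, Real.norm_natCast]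
      exact inv_lt_one_of_one_lt₀ this) s).2
  rw [filter_true_of_mem hs] at h
  have h2 := sum_le_hasSum (T.subtype (· ∈ Nat.factoredNumbers s))
    (fun m _ => show (0 : ℝ) ≤ ((m : ℕ) : ℝ)⁻¹ by positivity) h
  refine le_trans (le_of_eq ?_) h2
  exact (sum_subtype_of_mem (fun m : ℕ => (m : ℝ)⁻¹) hT).symm

theorem fibre {W R : ℕ} (hW : 0 < W) {r : Finset ℕ} (hr : r ∈ Fam W R) :
    ∑ n ∈ (Icc 1 R).filter (fun n => n.primeFactors.filter (fun p => ¬p ∣ W) = r), (n : ℝ)⁻¹ ≤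
      (∏ p ∈ r, 1 / ((p : ℝ) - 1)) * ∏ p ∈ W.primeFactors, (1 - (p : ℝ)⁻¹)⁻¹ := by
  have hp : ∀ p ∈ r, p.Prime ∧ ¬p ∣ W := fun p hp => (mem_PS.1 ((mem_Fam.1 hr).1 hp)).2
  set q : ℕ := ∏ p ∈ r, p with hq
  have hq0 : 0 < q := prod_pos fun p h => (hp p h).1.pos
  set T := (Icc 1 R).filter (fun n => n.primeFactors.filter (fun p => ¬p ∣ W) = r) with hT
  have hd : ∀ n ∈ T, q ∣ n := fun n hn => by
    have h2 := (mem_filter.1 hn).2
    refine dvd_trans (prod_dvd_prod_of_subset _ _ _ ?_) (Nat.prod_primeFactors_dvd n)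
    rw [← h2]
    exact filter_subset _ _
  have e1 : ∑ n ∈ T, (n : ℝ)⁻¹ = (q : ℝ)⁻¹ * ∑ m ∈ T.image (· / q), (m : ℝ)⁻¹ := by
    rw [sum_image fun x hx y hy e => by
      rw [← Nat.mul_div_cancel' (hd x hx), ← Nat.mul_div_cancel' (hd y hy)]
      exact congrArg (q * ·) e, mul_sum]
    refine sum_congr rfl fun n hn => ?_
    conv_lhs => rw [← Nat.mul_div_cancel' (hd n hn)]
    push_cast
    rw [mul_inv]
  have hdis : Disjoint r W.primeFactors := disjoint_left.2 fun p h1 h2 =>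
    (hp p h1).2 (Nat.dvd_of_mem_primeFactors h2)
  have h2 := sum_le (r ∪ W.primeFactors) (fun p h => (mem_union.1 h).elim (fun h => (hp p h).1)
    Nat.prime_of_mem_primeFactors) (T.image (· / q)) (fun m hm => by
      obtain ⟨n, hn, rfl⟩ := mem_image.1 hm
      have hn0 : n ≠ 0 := by
        have := (mem_Icc.1 (mem_filter.1 hn).1).1
        omega
      refine Nat.mem_factoredNumbers_of_dvd (m := n) ?_ (Nat.div_dvd_of_dvd (hd n hn))
      refine Nat.mem_factoredNumbers_of_primeFactors_subset hn0 fun p h => ?_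
      by_cases hw : p ∣ W
      · exact mem_union_right _
          (Nat.mem_primeFactors.2 ⟨Nat.prime_of_mem_primeFactors h, hw, hW.ne'⟩)
      · refine mem_union_left _ ?_
        rw [← (mem_filter.1 hn).2]
        exact mem_filter.2 ⟨h, hw⟩)
  rw [prod_union hdis] at h2
  have e2 : ∏ p ∈ r, 1 / ((p : ℝ) - 1) = (q : ℝ)⁻¹ * ∏ p ∈ r, (1 - (p : ℝ)⁻¹)⁻¹ := by
    rw [hq, Nat.cast_prod, ← prod_inv_distrib, ← prod_mul_distrib]
    refine prod_congr rfl fun p h => ?_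
    have : (p : ℝ) ≠ 0 := by exact_mod_cast (hp p h).1.ne_zero
    rw [← mul_inv, mul_sub, mul_one, mul_inv_cancel₀ this, one_div]
  rw [e1, e2, mul_assoc]
  exact mul_le_mul_of_nonneg_left h2 (by positivity)

end GlH

/-- `GG W R ≥ (φ(W) / W) log (R + 1)` -/
theorem GG_ge {W : ℕ} (hW : 0 < W) (R : ℕ) :
    (W.totient : ℝ) / W * Real.log ((R : ℝ) + 1) ≤ GG W R := by
  have h1 : Real.log ((R : ℝ) + 1) ≤ ∑ n ∈ Icc 1 R, (n : ℝ)⁻¹ := by
    have := log_add_one_le_harmonic R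
    rw [harmonic_eq_sum_Icc] at this
    push_cast at this
    exact this
  have h2 : ∑ n ∈ Icc 1 R, (n : ℝ)⁻¹ ≤ GG W R * ∏ p ∈ W.primeFactors, (1 - (p : ℝ)⁻¹)⁻¹ := by
    rw [← sum_fiberwise_of_maps_to (t := Fam W R)
      (g := fun n : ℕ => n.primeFactors.filter fun p => ¬p ∣ W), GG, sum_mul]
    · exact sum_le_sum fun r hr => GlH.fibre hW hr
    · intro n hn
      obtain ⟨hn1, hn2⟩ := mem_Icc.1 hn
      refine mem_Fam.2 ⟨fun p hp => ?_, ?_⟩
      · obtain ⟨h3, h4⟩ := mem_filter.1 hp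
        exact mem_PS.2 ⟨(Nat.le_of_mem_primeFactors h3).trans hn2,
          Nat.prime_of_mem_primeFactors h3, h4⟩
      · exact (Nat.le_of_dvd hn1 (dvd_trans (prod_dvd_prod_of_subset _ _ _ (filter_subset _ _))
          (Nat.prod_primeFactors_dvd n))).trans hn2
  have hW' : (0 : ℝ) < W := by exact_mod_cast hW
  have hphi : (0 : ℝ) < W.totient := by exact_mod_cast Nat.totient_pos.2 hW
  have h3 : (W.totient : ℝ) = W * ∏ p ∈ W.primeFactors, (1 - (p : ℝ)⁻¹) := by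
    have := congrArg (fun x : ℚ => (x : ℝ)) (Nat.totient_eq_mul_prod_factors W)
    push_cast at this
    exact this
  have h4 : (W.totient : ℝ) / W * ∏ p ∈ W.primeFactors, (1 - (p : ℝ)⁻¹)⁻¹ = 1 := by
    have h5 : ∏ p ∈ W.primeFactors, (1 - (p : ℝ)⁻¹) ≠ 0 := fun h => by
      rw [h, mul_zero] at h3
      exact hphi.ne' h3
    rw [prod_inv_distrib, h3, mul_div_cancel_left₀ _ hW'.ne', mul_inv_cancel₀ h5]
  calc (W.totient : ℝ) / W * Real.log ((R : ℝ) + 1)
      ≤ (W.totient : ℝ) / W * (GG W R * ∏ p ∈ W.primeFactors, (1 - (p : ℝ)⁻¹)⁻¹) :=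
        mul_le_mul_of_nonneg_left (h1.trans h2) (by positivity)
    _ = GG W R := by rw [mul_left_comm, h4, mul_one]

end Pool.Agent.MP_a43263_nt.GT.Sel
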