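import Pool.Agent.MP_a43263_nt.GT.Sel.MajDef
import Pool.Agent.MP_a43263_nt.GT.MajA
import Pool.Agent.MP_a43263_nt.GT.MajB
import Mathlib.Algebra.Field.ZMod
import Mathlib.Algebra.BigOperators.Associated
import Mathlib.Tactic.LinearCombination

/-! The estimate on boxes for the majorant of the primes. -/

set_option autoImplicit false

noncomputable section

namespace Pool.Agent.MP_a43263_nt.GT.Sel

open Finset DH

namespace MajC

open MajA MajB

/-- the two factors of a square -/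
def two (p : ℕ) (ρ : Finset ℕ × Finset ℕ) (v : ℝ) : ℝ :=
  (if p ∈ ρ.1 then v else 1) * (if p ∈ ρ.2 then v else 1)

theorem abs_two_le (p : ℕ) (ρ : Finset ℕ × Finset ℕ) {v : ℝ} (h : |v| ≤ 1) : |two p ρ v| ≤ 1 := by
  have k : ∀ s : Finset ℕ, |if p ∈ s then v else 1| ≤ 1 := fun s => by
    split_ifs
    · exact h
    · exact abs_one.le
  unfold two
  rw [abs_mul]
  exact mul_le_one₀ (k _) (abs_nonneg _) (k _)

def be (p : ℕ) (ρ : Finset ℕ × Finset ℕ) : ℝ := two p ρ (-1) - two p ρ (1 / ((p : ℝ) - 1))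

theorem two_zz (p : ℕ) (ρ : Finset ℕ × Finset ℕ) (n : ℤ) :
    two p ρ (zz p n) = be p ρ * ind ((n : ZMod p) = 0) + two p ρ (1 / ((p : ℝ) - 1)) := by
  unfold zz be
  split_ifs with h
  · rw [ind_true ((ZMod.intCast_zmod_eq_zero_iff_dvd n p).2 h)]
    ring
  · rw [ind_false (mt (ZMod.intCast_zmod_eq_zero_iff_dvd n p).1 h)]
    ring

theorem mean_two {p : ℕ} (hp : p.Prime) (ρ : Finset ℕ × Finset ℕ) :
    be p ρ * (1 / (p : ℝ)) + two p ρ (1 / ((p : ℝ) - 1)) =
      aa (fun p : ℕ => 1 / ((p : ℝ) - 1)) p ρ := by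
  have h2 : (2 : ℝ) ≤ p := by exact_mod_cast hp.two_le
  have h0 : (p : ℝ) ≠ 0 := by linarith
  have h1 : (p : ℝ) - 1 ≠ 0 := by linarith
  unfold be two aa
  split_ifs <;> field_simp <;> ring

theorem cast_ne {p : ℕ} {n : ℤ} (h0 : n ≠ 0) (h : |n| < p) : (n : ZMod p) ≠ 0 := fun k =>
  h0 (Int.eq_zero_of_abs_lt_dvd ((ZMod.intCast_zmod_eq_zero_iff_dvd n p).1 k) h)

section
variable {J T : Type} [Fintype J] [Fintype T] (a : J → T → ℤ) (W : ℕ) (b : ℤ) (c : J → ℤ)

/-- the linear part of a form modulo `p` -/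
def lin (p : ℕ) (j : J) : (T → ZMod p) →+ ZMod p where
  toFun x := ∑ t, (a j t : ZMod p) * x t
  map_zero' := by simp
  map_add' x y := by simp only [Pi.add_apply, mul_add, sum_add_distrib]

omit [Fintype J] in
theorem lin_single [DecidableEq T] (p : ℕ) (j : J) (t : T) (u : ZMod p) :
    lin a p j (Pi.single t u) = a j t * u := by
  show ∑ s, (a j s : ZMod p) * (Pi.single t u : T → ZMod p) s = _
  rw [sum_eq_single t, Pi.single_eq_same]
  · intro s _ hs
    rw [Pi.single_eq_of_ne hs, mul_zero]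
  · intro h
    exact absurd (mem_univ t) h

def th (p : ℕ) (j : J) (u : ZMod p) : Prop := (W : ZMod p) * (c j + u) + b = 0

/-- the local factor -/
def ph (p : ℕ) (ρ : J → Finset ℕ × Finset ℕ) (x : T → ZMod p) : ℝ :=
  ∏ j, (be p (ρ j) * ind (th W b c p j (lin a p j x)) + two p (ρ j) (1 / ((p : ℝ) - 1)))

theorem ph_cast (p : ℕ) (ρ : J → Finset ℕ × Finset ℕ) (y : T → ℕ) :
    ph a W b c p ρ (fun t => (y t : ZMod p)) =
      ∏ j, two p (ρ j) (zz p (W * (c j + ∑ t, a j t * (y t : ℤ)) + b)) := by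
  refine prod_congr rfl fun j _ => ?_
  rw [two_zz]
  push_cast
  rfl

theorem abs_ph_le {p : ℕ} (hp : p.Prime) (ρ : J → Finset ℕ × Finset ℕ) (x : T → ZMod p) :
    |ph a W b c p ρ x| ≤ 1 := by
  unfold ph
  rw [abs_prod]
  refine prod_le_one (fun _ _ => abs_nonneg _) fun j _ => ?_
  by_cases h : th W b c p j (lin a p j x)
  · rw [ind_true h, mul_one, be, sub_add_cancel]
    exact abs_two_le _ _ (by simp)
  · rw [ind_false h, mul_zero, zero_add]
    exact abs_two_le _ _ ((abs_of_nonneg (inv_pred_nonneg hp)).trans_le (inv_pred_le_one hp))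

omit [Fintype J] in
theorem E_th {p : ℕ} [Fact p.Prime] (hW : ¬p ∣ W) (j : J) :
    E (fun u => ind (th W b c p j u)) = 1 / (p : ℝ) := by
  have h0 : (W : ZMod p) ≠ 0 := mt (ZMod.natCast_eq_zero_iff W p).1 hW
  have hp : (p : ℝ) ≠ 0 := Nat.cast_ne_zero.2 (Fact.out : p.Prime).ne_zero
  have k := E_point (fun _ : ZMod p => (1 : ℝ)) (-(b : ZMod p) / W - c j)
  simp only [mul_one] at k
  rw [E_mul_left, Nat.card_zmod] at k
  rw [eq_div_iff hp, mul_comm, ← k]
  refine congrArg (fun f => (p : ℝ) * E f) (funext fun u => congrArg ind (propext ?_))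
  unfold th
  rw [sub_eq_iff_eq_add, div_eq_iff h0]
  constructor <;> intro h <;> linear_combination -h

theorem loc_ph {p K : ℕ} [Fact p.Prime] (hW : ¬p ∣ W) (hK : ∀ j t, |a j t| ≤ K)
    (h1 : ∀ j, ∃ t, a j t ≠ 0) (h2 : ∀ i j, i ≠ j → ∃ s t, a i s * a j t ≠ a i t * a j s)
    (k1 : K < p) (k2 : 2 * K ^ 2 < p) (ρ : J → Finset ℕ × Finset ℕ) :
    |E (ph a W b c p ρ) - ∏ j, aa (fun p : ℕ => 1 / ((p : ℝ) - 1)) p (ρ j)| ≤
      4 ^ Fintype.card J * (1 / (p : ℝ)) ^ 2 := by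
  classical
  have hp : p.Prime := Fact.out
  have hp1 : (1 : ℝ) ≤ p := by exact_mod_cast hp.one_le
  have hg : |1 / ((p : ℝ) - 1)| ≤ 1 :=
    (abs_of_nonneg (inv_pred_nonneg hp)).trans_le (inv_pred_le_one hp)
  rw [← prod_congr rfl fun j _ => mean_two hp (ρ j)]
  refine loc (fun j x => th W b c p j (lin a p j x)) (by positivity)
    ((div_le_one (by linarith)).2 hp1) (fun j => ?_) (fun i j hij => ?_) _ _
    (fun j => abs_two_le _ _ hg) fun j => ?_
  · rw [← E_th W b c hW j]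
    refine E_hom (lin a p j) (fun u => ?_) fun u => ind (th W b c p j u)
    obtain ⟨t, ht⟩ := h1 j
    have h0 : (a j t : ZMod p) ≠ 0 := cast_ne ht ((hK j t).trans_lt (by exact_mod_cast k1))
    exact ⟨Pi.single t (u / a j t), by rw [lin_single, mul_div_cancel₀ _ h0]⟩
  · have hs : Function.Surjective ((lin a p i).prod (lin a p j)) := by
      rintro ⟨u, v⟩
      obtain ⟨s, t, hst⟩ := h2 i j hij
      have h0 : ((a i s * a j t - a i t * a j s : ℤ) : ZMod p) ≠ 0 := by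
        refine cast_ne (sub_ne_zero.2 hst) ?_
        have b1 : ∀ i s j t, |a i s * a j t| ≤ (K : ℤ) * K := fun i s j t => by
          rw [abs_mul]
          exact mul_le_mul (hK _ _) (hK _ _) (abs_nonneg _) (Int.natCast_nonneg _)
        have b2 : 2 * (K : ℤ) ^ 2 < p := by exact_mod_cast k2
        have b3 := abs_sub (a i s * a j t) (a i t * a j s)
        nlinarith [b1 i s j t, b1 i t j s]
      push_cast at h0
      obtain ⟨d, hd⟩ := IsUnit.exists_right_inv (Ne.isUnit h0)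
      refine ⟨Pi.single s ((u * a j t - v * a i t) * d) +
        Pi.single t ((v * a i s - u * a j s) * d), ?_⟩
      rw [AddMonoidHom.prod_apply, map_add, map_add, lin_single, lin_single, lin_single,
        lin_single, Prod.mk.injEq]
      exact ⟨by linear_combination u * hd, by linear_combination v * hd⟩
    have k := E_hom _ hs fun u => ind (th W b c p i u.1) * ind (th W b c p j u.2)
    refine (k.trans ?_).le
    rw [E_prod]
    simp only [E_mul_left, E_th W b c hW, mul_comm _ (1 / (p : ℝ))]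
    rw [sq]
  · unfold be
    refine (abs_sub _ _).trans ?_
    linarith [abs_two_le p (ρ j) (v := -1) (by simp), abs_two_le p (ρ j) hg]

/-- the local mean -/
def MM (p : ℕ) (ρ : J → Finset ℕ × Finset ℕ) : ℝ :=
  if h : p ≠ 0 then (haveI : NeZero p := ⟨h⟩; E (ph a W b c p ρ)) else 0

theorem MM_eq (p : ℕ) [NeZero p] (ρ : J → Finset ℕ × Finset ℕ) :
    MM a W b c p ρ = E (ph a W b c p ρ) := dif_pos (NeZero.ne p)

theorem term {R H : ℕ} [DecidableEq J] (hH : 0 < H)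
    (h : Fintype.card T * R ^ (2 * Fintype.card J) ≤ H) {ρ : J → Finset ℕ × Finset ℕ}
    (hρ : ρ ∈ Fintype.piFinset fun _ : J => Fam W R ×ˢ Fam W R) :
    |E (fun y : T → Fin H => ∏ j,
        (∏ p ∈ (ρ j).1, zz p (W * (c j + ∑ t, a j t * ((y t : ℕ) : ℤ)) + b)) *
          ∏ p ∈ (ρ j).2, zz p (W * (c j + ∑ t, a j t * ((y t : ℕ) : ℤ)) + b)) -
        ∏ p ∈ PS W R, MM a W b c p ρ| ≤
      2 * (Fintype.card T * ((R : ℝ) ^ (2 * Fintype.card J) / H)) := by
  have hρ' := fun j => mem_product.1 (Fintype.mem_piFinset.1 hρ j)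
  let S : Finset ℕ := univ.biUnion fun j => (ρ j).1 ∪ (ρ j).2
  have s1 : ∀ j, (ρ j).1 ⊆ S := fun j p hp =>
    mem_biUnion.2 ⟨j, mem_univ _, mem_union_left _ hp⟩
  have s2 : ∀ j, (ρ j).2 ⊆ S := fun j p hp =>
    mem_biUnion.2 ⟨j, mem_univ _, mem_union_right _ hp⟩
  have hS : S ⊆ PS W R := biUnion_subset.2 fun j _ =>
    union_subset (mem_Fam.1 (hρ' j).1).1 (mem_Fam.1 (hρ' j).2).1
  have hpr : ∀ p ∈ PS W R, p.Prime := fun p hp => (mem_PS.1 hp).2.1
  have : ∀ i : S, NeZero (i : ℕ) := fun i => ⟨(hpr _ (hS i.2)).ne_zero⟩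
  have hD : ∏ i : S, (i : ℕ) ≤ R ^ (2 * Fintype.card J) := by
    rw [prod_coe_sort S fun p => p]
    have d : ∏ p ∈ S, p ∣ ∏ j, (∏ p ∈ (ρ j).1, p) * ∏ p ∈ (ρ j).2, p := by
      refine prod_primes_dvd _ (fun p hp => (hpr p (hS hp)).prime) fun p hp => ?_
      obtain ⟨j, -, hj⟩ := mem_biUnion.1 hp
      refine Dvd.dvd.trans ?_ (dvd_prod_of_mem _ (mem_univ j))
      rcases mem_union.1 hj with hj | hj
      · exact (dvd_prod_of_mem (fun p => p) hj).mul_right _
      · exact (dvd_prod_of_mem (fun p => p) hj).mul_left _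
    refine (Nat.le_of_dvd (prod_pos fun j _ => Nat.mul_pos
      (prod_pos fun p hp => (hpr p (hS (s1 j hp))).pos)
      (prod_pos fun p hp => (hpr p (hS (s2 j hp))).pos)) d).trans ?_
    rw [pow_mul, ← card_univ, ← prod_const]
    refine prod_le_prod' fun j _ => ?_
    rw [sq]
    exact Nat.mul_le_mul (mem_Fam.1 (hρ' j).1).2 (mem_Fam.1 (hρ' j).2).2
  have k := box_crt (T := T) (fun i : S => (i : ℕ))
    (fun i j hij => (Nat.coprime_primes (hpr _ (hS i.2)) (hpr _ (hS j.2))).2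
      fun e => hij (Subtype.ext e)) hH ((Nat.mul_le_mul_left _ hD).trans h)
    (fun i => ph a W b c i ρ) fun i x => abs_ph_le a W b c (hpr _ (hS i.2)) ρ x
  have e1 : ∏ i : S, E (ph a W b c i ρ) = ∏ p ∈ PS W R, MM a W b c p ρ := by
    rw [← prod_subset hS, ← prod_coe_sort S fun p => MM a W b c p ρ]
    · exact prod_congr rfl fun i _ => (MM_eq a W b c i ρ).symm
    · intro p hp hn
      have : NeZero p := ⟨(hpr p hp).ne_zero⟩
      rw [MM_eq, ← E_const (Ω := T → ZMod p) 1]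
      refine congrArg E (funext fun x => prod_eq_one fun j _ => ?_)
      have n1 : p ∉ (ρ j).1 := fun k => hn (s1 j k)
      have n2 : p ∉ (ρ j).2 := fun k => hn (s2 j k)
      simp only [be, two, if_neg n1, if_neg n2, mul_one, sub_self, zero_mul, zero_add]
  have e2 : ∀ y : T → Fin H, ∏ i : S, ph a W b c i ρ (fun t => ((y t : ℕ) : ZMod i)) = ∏ j,
      (∏ p ∈ (ρ j).1, zz p (W * (c j + ∑ t, a j t * ((y t : ℕ) : ℤ)) + b)) *
        ∏ p ∈ (ρ j).2, zz p (W * (c j + ∑ t, a j t * ((y t : ℕ) : ℤ)) + b) := by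
    intro y
    rw [prod_congr rfl fun (i : S) _ => ph_cast a W b c i ρ fun t => (y t : ℕ),
      prod_coe_sort S fun p => ∏ j,
        two p (ρ j) (zz p (W * (c j + ∑ t, a j t * ((y t : ℕ) : ℤ)) + b)), prod_comm]
    refine prod_congr rfl fun j _ => ?_
    unfold two
    rw [prod_mul_distrib, prod_ite_mem, prod_ite_mem, inter_eq_right.2 (s1 j),
      inter_eq_right.2 (s2 j)]
  rw [e1, funext e2] at k
  refine k.trans ?_
  have hD' : ((∏ i : S, (i : ℕ) : ℕ) : ℝ) ≤ (R : ℝ) ^ (2 * Fintype.card J) := by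
    exact_mod_cast hD
  gcongr

end

theorem sum_inv_sq {w : ℕ} (hw : 1 ≤ w) (n : ℕ) :
    ∑ p ∈ Ioc w (w + n), (1 / (p : ℝ)) ^ 2 ≤ 1 / (w : ℝ) - 1 / ((w + n : ℕ) : ℝ) := by
  induction n with
  | zero => simp
  | succ n ih =>
    rw [← add_assoc, sum_Ioc_succ_top (Nat.le_add_right w n)]
    have h : (1 : ℝ) ≤ ((w + n : ℕ) : ℝ) := by exact_mod_cast hw.trans (Nat.le_add_right w n)
    rw [Nat.cast_succ]
    generalize ((w + n : ℕ) : ℝ) = x at h ih ⊢
    have k : (1 / (x + 1)) ^ 2 ≤ 1 / x - 1 / (x + 1) := by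
      have e : 1 / x - 1 / (x + 1) = 1 / (x + 1) * (1 / x) := by
        field_simp
        ring
      rw [e, sq]
      gcongr
      linarith
    linarith

end MajC

open MajA MajB MajC in
theorem box : BoxStmt := by
  intro J T _ _ a K w W R H b c hK h1 h2 hw k1 k2 hW hR hH hT hm
  classical
  set m := Fintype.card J with hmJ
  have hG := one_le_GG (W := W) hR
  have hGm : 1 ≤ GG W R ^ m := one_le_pow₀ hG
  have hpr : ∀ p ∈ PS W R, p.Prime := fun p hp => (mem_PS.1 hp).2.1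
  have hlt : ∀ p ∈ PS W R, w < p := fun p hp =>
    lt_of_not_ge fun k => (mem_PS.1 hp).2.2 (hW p (hpr p hp) k)
  have hw' : (0 : ℝ) < w := Nat.cast_pos.2 hw
  let X := Fintype.piFinset fun _ : J => Fam W R ×ˢ Fam W R
  have c1 := core (g := fun p : ℕ => 1 / ((p : ℝ) - 1)) (P0 := PS W R) (F := Fam W R)
    (fun p hp => inv_pred_nonneg (hpr p hp)) (fun r hr => (mem_Fam.1 hr).1)
    (fun r hr s hs => mem_Fam.2 ⟨hs.trans (mem_Fam.1 hr).1,
      (prod_le_prod_of_subset_of_one_le' hs fun p hp _ =>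
        (hpr p ((mem_Fam.1 hr).1 hp)).one_le).trans (mem_Fam.1 hr).2⟩)
    (MM a W b c) (fun p : ℕ => (4 : ℝ) ^ m * (1 / (p : ℝ)) ^ 2) fun p hp ρ => by
      have : Fact p.Prime := ⟨hpr p hp⟩
      rw [MM_eq]
      exact loc_ph a W b c (mem_PS.1 hp).2.2 hK h1 h2 (k1.trans_lt (hlt p hp))
        (k2.trans_lt (hlt p hp)) ρ
  have c2 : ∑ p ∈ PS W R, (4 : ℝ) ^ m * (4 ^ m * (1 / (p : ℝ)) ^ 2) ≤ 16 ^ m / (w : ℝ) := by
    have s : PS W R ⊆ Ioc w (w + R) := fun p hp =>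
      mem_Ioc.2 ⟨hlt p hp, (mem_PS.1 hp).1.trans (Nat.le_add_left _ _)⟩
    have k := (sum_le_sum_of_subset_of_nonneg s fun (p : ℕ) _ _ => sq_nonneg (1 / (p : ℝ))).trans
      ((sum_inv_sq hw R).trans (sub_le_self _ (by positivity)))
    rw [← mul_sum, ← mul_sum, ← mul_assoc, ← mul_pow, div_eq_mul_one_div,
      show (4 : ℝ) * 4 = 16 by norm_num]
    exact mul_le_mul_of_nonneg_left k (by positivity)
  have c3 := prod_one_add_le (PS W R) (f := fun p : ℕ => (4 : ℝ) ^ m * (4 ^ m * (1 / (p : ℝ)) ^ 2))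
    (fun _ _ => by positivity) (c2.trans ((div_le_one hw').2 (by exact_mod_cast hm)))
  have c4 : |∑ ρ ∈ X, ∏ p ∈ PS W R, MM a W b c p ρ - GG W R ^ m| ≤
      GG W R ^ m * (2 * 16 ^ m / w) := by
    refine c1.trans (mul_le_mul_of_nonneg_left ?_ (zero_le_one.trans hGm))
    rw [mul_div_assoc]
    linarith
  let f : (J → Finset ℕ × Finset ℕ) → (T → Fin H) → ℝ := fun ρ y => ∏ j,
    (∏ p ∈ (ρ j).1, zz p (W * (c j + ∑ t, a j t * ((y t : ℕ) : ℤ)) + b)) *
      ∏ p ∈ (ρ j).2, zz p (W * (c j + ∑ t, a j t * ((y t : ℕ) : ℤ)) + b)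
  have e1 : E (fun y : T → Fin H => ∏ j, nu W R b (c j + ∑ t, a j t * ((y t : ℕ) : ℤ))) =
      (GG W R ^ m)⁻¹ * ∑ ρ ∈ X, E (f ρ) := by
    rw [← E_sum, ← E_mul_left]
    refine congrArg E (funext fun y => ?_)
    unfold nu
    rw [prod_div_distrib, prod_const, card_univ, div_eq_inv_mul]
    congr 1
    rw [← prod_univ_sum (fun _ : J => Fam W R ×ˢ Fam W R) fun j ρ =>
      (∏ p ∈ ρ.1, zz p (W * (c j + ∑ t, a j t * ((y t : ℕ) : ℤ)) + b)) *
        ∏ p ∈ ρ.2, zz p (W * (c j + ∑ t, a j t * ((y t : ℕ) : ℤ)) + b)]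
    refine prod_congr rfl fun j _ => ?_
    unfold FF
    rw [sq, sum_mul_sum, sum_product]
  have hX : (X.card : ℝ) ≤ (R : ℝ) ^ (2 * m) := by
    have : X.card ≤ R ^ (2 * m) := by
      rw [Fintype.card_piFinset, prod_const, card_univ, card_product, pow_mul, sq]
      exact Nat.pow_le_pow_left (Nat.mul_le_mul (card_Fam_le W R) (card_Fam_le W R)) _
    exact_mod_cast this
  have c5 : |∑ ρ ∈ X, E (f ρ) - ∑ ρ ∈ X, ∏ p ∈ PS W R, MM a W b c p ρ| ≤
      2 * Fintype.card T * (R : ℝ) ^ (4 * m) / H := by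
    rw [← sum_sub_distrib]
    refine (abs_sum_le_sum_abs _ _).trans
      ((sum_le_sum fun ρ hρ => term a W b c hH hT hρ).trans ?_)
    rw [sum_const, nsmul_eq_mul]
    refine (mul_le_mul_of_nonneg_right hX (by positivity)).trans_eq ?_
    rw [show 4 * m = 2 * m + 2 * m by ring, pow_add]
    ring
  have hpos : 0 < GG W R ^ m := zero_lt_one.trans_le hGm
  have e2 : (GG W R ^ m)⁻¹ * ∑ ρ ∈ X, E (f ρ) - 1 =
      (∑ ρ ∈ X, E (f ρ) - GG W R ^ m) / GG W R ^ m := by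
    field_simp
  rw [e1, e2, abs_div, abs_of_pos hpos, div_le_iff₀ hpos]
  have c6 : 2 * Fintype.card T * (R : ℝ) ^ (4 * m) / H ≤
      2 * Fintype.card T * (R : ℝ) ^ (4 * m) / H * GG W R ^ m :=
    le_mul_of_one_le_right (by positivity) hGm
  have c7 := abs_sub_le (∑ ρ ∈ X, E (f ρ)) (∑ ρ ∈ X, ∏ p ∈ PS W R, MM a W b c p ρ) (GG W R ^ m)
  linarith

end Pool.Agent.MP_a43263_nt.GT.Sel
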