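import Pool.Agent.MP_a43263_nt.DH.Spec
import Mathlib.Data.Nat.Squarefree
import Mathlib.Algebra.Order.BigOperators.Ring.Finset

/-! The majorant of the primes: optimal sieve weights in the orthogonal basis.
Note: `/team-store/GT_majorant_h57.md`. -/

set_option autoImplicit false

noncomputable section

namespace Pool.Agent.MP_a43263_nt.GT.Sel

open Finset DH

/-- the primes up to `R` that do not divide `W` -/
def PS (W R : ℕ) : Finset ℕ := (range (R + 1)).filter fun p => p.Prime ∧ ¬p ∣ W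

/-- the sets of such primes with product at most `R` -/
def Fam (W R : ℕ) : Finset (Finset ℕ) := (PS W R).powerset.filter fun r => ∏ p ∈ r, p ≤ R

/-- the local weight -/
def zz (p : ℕ) (n : ℤ) : ℝ := if (p : ℤ) ∣ n then -1 else 1 / ((p : ℝ) - 1)

def FF (W R : ℕ) (n : ℤ) : ℝ := ∑ r ∈ Fam W R, ∏ p ∈ r, zz p n

def GG (W R : ℕ) : ℝ := ∑ r ∈ Fam W R, ∏ p ∈ r, 1 / ((p : ℝ) - 1)

/-- the majorant -/
def nu (W R : ℕ) (b n : ℤ) : ℝ := FF W R (W * n + b) ^ 2 / GG W R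

/-- the estimate on boxes: forms with coefficients at most `K`, nonzero and pairwise not
proportional, any constants `c`, any `b` -/
def BoxStmt : Prop := ∀ (J T : Type) [Fintype J] [Fintype T] (a : J → T → ℤ) (K w W R H : ℕ)
  (b : ℤ) (c : J → ℤ), (∀ j t, |a j t| ≤ K) → (∀ j, ∃ t, a j t ≠ 0) →
  (∀ i j, i ≠ j → ∃ s t, a i s * a j t ≠ a i t * a j s) → 1 ≤ w → K ≤ w → 2 * K ^ 2 ≤ w →
  (∀ p, p.Prime → p ≤ w → p ∣ W) → 1 ≤ R → 0 < H →
  Fintype.card T * R ^ (2 * Fintype.card J) ≤ H →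
  16 ^ Fintype.card J ≤ w →
  |E (fun y : T → Fin H => ∏ j, nu W R b (c j + ∑ t, a j t * ((y t : ℕ) : ℤ))) - 1| ≤
    2 * 16 ^ Fintype.card J / (w : ℝ) +
      2 * Fintype.card T * (R : ℝ) ^ (4 * Fintype.card J) / H

theorem mem_PS {W R p : ℕ} : p ∈ PS W R ↔ p ≤ R ∧ p.Prime ∧ ¬p ∣ W := by
  unfold PS
  rw [mem_filter, mem_range, Nat.lt_succ_iff]

theorem mem_Fam {W R : ℕ} {r : Finset ℕ} : r ∈ Fam W R ↔ r ⊆ PS W R ∧ ∏ p ∈ r, p ≤ R := by
  unfold Fam
  rw [mem_filter, mem_powerset]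

theorem inv_pred_nonneg {p : ℕ} (hp : p.Prime) : 0 ≤ 1 / ((p : ℝ) - 1) := by
  have : (2 : ℝ) ≤ p := by exact_mod_cast hp.two_le
  exact div_nonneg zero_le_one (by linarith)

theorem inv_pred_le_one {p : ℕ} (hp : p.Prime) : 1 / ((p : ℝ) - 1) ≤ 1 := by
  have : (2 : ℝ) ≤ p := by exact_mod_cast hp.two_le
  rw [div_le_one (by linarith)]
  linarith

theorem abs_zz_le {p : ℕ} (hp : p.Prime) (n : ℤ) : |zz p n| ≤ 1 := by
  unfold zz
  split_ifs
  · simp
  · rw [abs_of_nonneg (inv_pred_nonneg hp)]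
    exact inv_pred_le_one hp

theorem one_le_GG {W R : ℕ} (hR : 1 ≤ R) : 1 ≤ GG W R := by
  unfold GG
  have h0 : (∅ : Finset ℕ) ∈ Fam W R := mem_Fam.2 ⟨empty_subset _, by simpa using hR⟩
  have h := single_le_sum (f := fun r : Finset ℕ => ∏ p ∈ r, 1 / ((p : ℝ) - 1))
    (fun r hr => prod_nonneg fun p hp =>
      inv_pred_nonneg (mem_PS.1 ((mem_Fam.1 hr).1 hp)).2.1) h0
  simpa using h

theorem nu_nonneg {W R : ℕ} (hR : 1 ≤ R) (b n : ℤ) : 0 ≤ nu W R b n :=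
  div_nonneg (sq_nonneg _) (zero_le_one.trans (one_le_GG hR))

/-- at a number without prime factor in the range the majorant is `GG` -/
theorem nu_eq_GG {W R : ℕ} (hR : 1 ≤ R) {b n : ℤ}
    (h : ∀ p ∈ PS W R, ¬(p : ℤ) ∣ W * n + b) : nu W R b n = GG W R := by
  have h1 : FF W R (W * n + b) = GG W R := by
    unfold FF GG
    refine sum_congr rfl fun r hr => prod_congr rfl fun p hp => ?_
    unfold zz
    rw [if_neg (h p ((mem_Fam.1 hr).1 hp))]
  have h2 : GG W R ≠ 0 := (zero_lt_one.trans_le (one_le_GG hR)).ne'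
  unfold nu
  rw [h1, sq, mul_div_assoc, div_self h2, mul_one]

theorem card_Fam_le (W R : ℕ) : (Fam W R).card ≤ R := by
  have h : (Fam W R).card ≤ (Icc 1 R).card := by
    refine card_le_card_of_injOn (fun r => ∏ p ∈ r, p) (fun r hr => ?_) fun r hr s hs e => ?_
    · have hr' := mem_Fam.1 (mem_coe.1 hr)
      exact mem_coe.2 (mem_Icc.2 ⟨prod_pos fun p hp => (mem_PS.1 (hr'.1 hp)).2.1.pos, hr'.2⟩)
    · have h1 := Nat.primeFactors_prod fun p hp =>
        (mem_PS.1 ((mem_Fam.1 (mem_coe.1 hr)).1 hp)).2.1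
      have h2 := Nat.primeFactors_prod fun p hp =>
        (mem_PS.1 ((mem_Fam.1 (mem_coe.1 hs)).1 hp)).2.1
      rw [← h1, ← h2]
      exact congrArg Nat.primeFactors e
  simpa using h

theorem abs_FF_le (W R : ℕ) (n : ℤ) : |FF W R n| ≤ R := by
  unfold FF
  refine (abs_sum_le_sum_abs _ _).trans ?_
  have h : ∑ r ∈ Fam W R, |∏ p ∈ r, zz p n| ≤ ∑ _r ∈ Fam W R, (1 : ℝ) := by
    refine sum_le_sum fun r hr => ?_
    rw [abs_prod]
    exact prod_le_one (fun _ _ => abs_nonneg _) fun p hp =>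
      abs_zz_le (mem_PS.1 ((mem_Fam.1 hr).1 hp)).2.1 n
  refine h.trans ?_
  rw [sum_const, nsmul_eq_mul, mul_one]
  exact_mod_cast card_Fam_le W R

theorem nu_le {W R : ℕ} (hR : 1 ≤ R) (b n : ℤ) : nu W R b n ≤ (R : ℝ) ^ 2 := by
  unfold nu
  refine (div_le_self (sq_nonneg _) (one_le_GG hR)).trans ?_
  rw [← sq_abs]
  exact pow_le_pow_left₀ (abs_nonneg _) (abs_FF_le W R _) 2

end Pool.Agent.MP_a43263_nt.GT.Sel
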