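import Mathlib
import Pool.Agent.MP_a43263_nt.GT.Spec2
import Pool.Agent.MP_a43263_nt.GT.Spec3
import Pool.Agent.MP_a43263_nt.GT.Sel.Wrap
import Pool.Agent.MP_a43263_nt.GT.Sel.MajC
import Pool.Agent.MP_a43263_nt.GT.Sel.Gl

/-! The majorant of the primes satisfies the linear forms condition. -/

set_option autoImplicit false

noncomputable section

namespace Pool.Agent.MP_a43263_nt.GT.Sel

open Finset Function
open DH (E)

theorem rho_tot (w : ℕ) : rho w = ((primorial w).totient : ℝ) / primorial w := by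
  have h0 : (primorial w : ℝ) ≠ 0 := by exact_mod_cast (primorial_pos w).ne'
  have h3 : ((primorial w).totient : ℝ) =
      primorial w * ∏ p ∈ (primorial w).primeFactors, (1 - (p : ℝ)⁻¹) := by
    have := congrArg (fun x : ℚ => (x : ℝ)) (Nat.totient_eq_mul_prod_factors (primorial w))
    push_cast at this
    exact this
  rw [h3, mul_div_cancel_left₀ _ h0, rho]
  congr 1
  exact (Nat.primeFactors_prod fun p hp => (mem_filter.1 hp).2).symm

/-- the estimate on the cyclic group with explicit parameters -/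
theorem cyc {J T : Type} [Fintype J] [Fintype T] (a : J → T → ℤ) (K w R A N m : ℕ) [NeZero N]
    (b : ℤ) (hK : ∀ j t, |a j t| ≤ K) (h1 : ∀ j, ∃ t, a j t ≠ 0)
    (hu : ∀ j, ∃ t, IsUnit (a j t : ZMod N))
    (h2 : ∀ i j, i ≠ j → ∃ s t, a i s * a j t ≠ a i t * a j s) (hm : Fintype.card J ≤ m)
    (k1 : K ≤ w) (k2 : 2 * K ^ 2 ≤ w) (k3 : 16 ^ m ≤ w) (hR : 1 ≤ R) (hA : 0 < A)
    (hT : Fintype.card T ≤ A) :
    |E (fun x : T → ZMod N => ∏ j, nu (primorial w) R b
      (((∑ t, (a j t : ZMod N) * x t).val : ℕ) : ℤ)) - 1| ≤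
      2 * 16 ^ m / (w : ℝ) + 2 * Fintype.card T / A +
        2 * m * Fintype.card T * K * A * (R : ℝ) ^ (6 * m) / N := by
  have hR' : (1 : ℝ) ≤ R := by exact_mod_cast hR
  have hA' : (0 : ℝ) < A := by exact_mod_cast hA
  have hw : 1 ≤ w := (Nat.one_le_pow _ _ (by norm_num)).trans k3
  have hH : 0 < A * R ^ (4 * m) := Nat.mul_pos hA (Nat.pow_pos hR)
  have h := wrap a K N (A * R ^ (4 * m)) (nu (primorial w) R b) ((R : ℝ) ^ 2) _
    (nu_nonneg hR b) (nu_le hR b) (one_le_pow₀ hR') hK hu hH fun c =>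
      box J T a K w (primorial w) R _ b c hK h1 h2 hw k1 k2
        (fun p hp hpw => (Nat.Prime.dvd_primorial_iff hp).2 hpw) hR hH
        (Nat.mul_le_mul hT (Nat.pow_le_pow_right hR (by omega)))
        ((Nat.pow_le_pow_right (by norm_num) hm).trans k3)
  refine h.trans (add_le_add (add_le_add ?_ ?_) ?_)
  · gcongr
    norm_num
  · have h3 : (R : ℝ) ^ (4 * Fintype.card J) ≤ (R : ℝ) ^ (4 * m) :=
      pow_le_pow_right₀ hR' (by omega)
    push_cast
    rw [div_le_div_iff₀ (by positivity) hA']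
    calc _ ≤ 2 * Fintype.card T * (R : ℝ) ^ (4 * m) * A := by gcongr
      _ = _ := by ring
  · have h3 : ((R : ℝ) ^ 2) ^ Fintype.card J ≤ ((R : ℝ) ^ 2) ^ m :=
      pow_le_pow_right₀ (one_le_pow₀ hR') hm
    have h4 : (Fintype.card J : ℝ) ≤ m := by exact_mod_cast hm
    push_cast
    calc _ ≤ ((R : ℝ) ^ 2) ^ m *
          (2 * m * (Fintype.card T * K * (A * (R : ℝ) ^ (4 * m))) / N) := by gcongr
      _ = _ := by ring

variable {κ : Type} [Fintype κ] [DecidableEq κ]

/-- the coefficients of the forms -/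
def co (e : κ → ℕ) (q : κ × (κ → Bool)) (t : κ × Bool) : ℤ :=
  if t.2 = q.2 t.1 then (e q.1 : ℤ) - e t.1 else 0

omit [DecidableEq κ] in
theorem lin_pick {N : ℕ} (e : κ → ℕ) (q : κ × (κ → Bool)) (x : κ × Bool → ZMod N) :
    lin e q.1 (pick x q.2) = ∑ t, (co e q t : ZMod N) * x t := by
  rw [Fintype.sum_prod_type, lin]
  refine sum_congr rfl fun i _ => ?_
  rw [sum_eq_single (q.2 i) (fun β _ h => by simp [co, h]) (fun h => absurd (mem_univ _) h)]
  simp [co, pick]

omit [Fintype κ] [DecidableEq κ] in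
theorem co_ne {e : κ → ℕ} (he : Injective e) {q : κ × (κ → Bool)} {i : κ} (h : i ≠ q.1) :
    co e q (i, q.2 i) ≠ 0 := by
  simp only [co, if_true]
  exact sub_ne_zero.2 fun h' => h (he (by exact_mod_cast h')).symm

omit [Fintype κ] [DecidableEq κ] in
theorem minor {e : κ → ℕ} (he : Injective e) {q q' : κ × (κ → Bool)} (h : q ≠ q')
    (h1 : q.2 q.1 = false) (h2 : q'.2 q'.1 = false) :
    ∃ s t, co e q s * co e q' t ≠ co e q t * co e q' s := by
  by_cases hj : q.1 = q'.1
  · obtain ⟨i, hi⟩ : ∃ i, q.2 i ≠ q'.2 i := by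
      by_contra H
      push Not at H
      exact h (Prod.ext hj (funext H))
    have hi1 : i ≠ q.1 := fun e => hi (by rw [e, h1, hj, h2])
    refine ⟨(i, q.2 i), (i, q'.2 i), ?_⟩
    rw [show co e q (i, q'.2 i) = 0 from if_neg hi.symm, zero_mul]
    exact mul_ne_zero (co_ne he hi1) (co_ne he (hj ▸ hi1))
  · refine ⟨(q'.1, q.2 q'.1), (q.1, q'.2 q.1), ?_⟩
    rw [show co e q (q.1, q'.2 q.1) = 0 by simp [co], zero_mul]
    exact mul_ne_zero (co_ne he (Ne.symm hj)) (co_ne he hj)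

omit [DecidableEq κ] in
theorem co_le (e : κ → ℕ) (q : κ × (κ → Bool)) (t : κ × Bool) :
    |co e q t| ≤ ((∑ i, e i : ℕ) : ℤ) := by
  have h : ∀ i, e i ≤ ∑ i, e i := fun i =>
    single_le_sum (f := e) (fun _ _ => Nat.zero_le _) (mem_univ i)
  have h1 := h q.1
  have h2 := h t.1
  unfold co
  split_ifs
  · rw [abs_le]; constructor <;> omega
  · simp only [abs_zero]; omega

theorem pse3 : Pse3Stmt := by
  intro κ _ _ _ e he
  set m : ℕ := Fintype.card (κ × (κ → Bool)) with hm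
  set t : ℕ := Fintype.card (κ × Bool) with ht
  set K : ℕ := ∑ i, e i with hK
  have hm0 : (0 : ℝ) ≤ m := Nat.cast_nonneg m
  refine ⟨1 / (12 * (m + 1)), by positivity,
    one_div_le_one_div_of_le (by norm_num) (by linarith), fun η hη0 hη ε hε => ?_⟩
  obtain ⟨w, hw⟩ := exists_nat_ge (6 * 16 ^ m / ε + K + 2 * K ^ 2 + 16 ^ m)
  obtain ⟨A, hA⟩ := exists_nat_ge (6 * t / ε + t + 1)
  obtain ⟨N₀, hN₀⟩ := exists_nat_ge ((3 * (2 * m * t * K * A : ℝ) / ε) ^ 2)
  have p1 : (0 : ℝ) ≤ 6 * 16 ^ m / ε := by positivity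
  have p2 : (0 : ℝ) ≤ K := by positivity
  have p3 : (0 : ℝ) ≤ 2 * K ^ 2 := by positivity
  have p4 : (0 : ℝ) < 16 ^ m := by positivity
  have p5 : (0 : ℝ) ≤ 6 * t / ε := by positivity
  have p6 : (0 : ℝ) ≤ t := by positivity
  refine ⟨w, N₀, fun N _ hN hu b => ?_⟩
  have hN0 : (1 : ℝ) ≤ N := by exact_mod_cast NeZero.pos N
  have hl : 0 ≤ Real.log N := Real.log_nonneg hN0
  set R : ℕ := ⌊Real.exp (η * Real.log N)⌋₊ with hR
  have hR1 : 1 ≤ R := Nat.le_floor (by
    rw [Nat.cast_one]; exact Real.one_le_exp (by positivity))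
  have hR2 : (R : ℝ) ≤ Real.exp (η * Real.log N) := Nat.floor_le (Real.exp_pos _).le
  have hR3 : Real.exp (η * Real.log N) < R + 1 := Nat.lt_floor_add_one _
  refine ⟨fun n => nu (primorial w) R b (n.val : ℕ), fun n => nu_nonneg hR1 _ _,
    fun n hp => ?_, fun J hJ => ?_⟩
  · show _ ≤ nu _ _ _ _
    rw [nu_eq_GG hR1, rho_tot]
    · refine le_trans (mul_le_mul_of_nonneg_left ?_ (by positivity)) (GG_ge (primorial_pos w) R)
      rw [Real.le_log_iff_exp_le (by positivity)]
      exact hR3.le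
    · intro p hp' hd
      obtain ⟨h1, h2, -⟩ := mem_PS.1 hp'
      have h3 : p ∣ primorial w * n.val + b := by exact_mod_cast hd
      have h6 : R < p := by exact_mod_cast hR2.trans_lt (hp p h2 h3)
      omega
  · have h := cyc (J := J) (fun q => co e q.1) K w R A N m b (fun q s => co_le e _ s)
      (fun q => let ⟨i, hi⟩ := exists_ne q.1.1; ⟨_, co_ne he hi⟩)
      (fun q => let ⟨i, hi⟩ := exists_ne q.1.1; ⟨(i, q.1.2 i), by
        simpa [co] using hu i q.1.1 hi⟩)
      (fun q q' hq => minor he (fun h => hq (Subtype.ext h)) (hJ _ q.2) (hJ _ q'.2))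
      (Fintype.card_subtype_le _) (by exact_mod_cast (show (K : ℝ) ≤ w by linarith))
      (by exact_mod_cast (show (2 * K ^ 2 : ℝ) ≤ w by linarith))
      (by exact_mod_cast (show (16 ^ m : ℝ) ≤ w by linarith)) hR1
      (by exact_mod_cast (show (0 : ℝ) < A by linarith))
      (by exact_mod_cast (show (t : ℝ) ≤ A by linarith))
    have e1 : (fun x : κ × Bool → ZMod N => ∏ q ∈ J, nu (primorial w) R b
        ((lin e q.1 (pick x q.2)).val : ℕ)) = fun x => ∏ q : J, nu (primorial w) R b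
        (((∑ s, (co e q.1 s : ZMod N) * x s).val : ℕ) : ℤ) := by
      funext x
      rw [← prod_coe_sort J]
      exact prod_congr rfl fun q _ => by rw [lin_pick]
    show |E (fun x : κ × Bool → ZMod N => ∏ q ∈ J, nu (primorial w) R b
        ((lin e q.1 (pick x q.2)).val : ℕ)) - 1| ≤ ε
    rw [e1]
    refine h.trans ?_
    have q1 : 2 * 16 ^ m / (w : ℝ) ≤ ε / 3 := by
      have h3 : 6 * 16 ^ m / ε ≤ w := by linarith
      rw [div_le_iff₀ hε] at h3
      rw [div_le_iff₀ (by linarith)]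
      linarith
    have q2 : 2 * (t : ℝ) / A ≤ ε / 3 := by
      have h3 : 6 * t / ε ≤ A := by linarith
      rw [div_le_iff₀ hε] at h3
      rw [div_le_iff₀ (by linarith)]
      linarith
    have q3 : 2 * m * t * K * A * (R : ℝ) ^ (6 * m) / N ≤ ε / 3 := by
      set u := Real.exp (Real.log N / 2) with hu'
      have hu0 : 0 < u := Real.exp_pos _
      have hu2 : u * u = N := by
        rw [hu', ← Real.exp_add, add_halves, Real.exp_log (by linarith)]
      have h3 : (R : ℝ) ^ (6 * m) ≤ u := by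
        refine (pow_le_pow_left₀ (Nat.cast_nonneg R) hR2 _).trans ?_
        rw [← Real.exp_nat_mul, hu', Real.exp_le_exp, ← mul_assoc, div_eq_inv_mul]
        refine mul_le_mul_of_nonneg_right ?_ hl
        rw [le_div_iff₀ (by positivity)] at hη
        push_cast
        nlinarith
      set C : ℝ := 2 * m * t * K * A with hC
      have hC0 : 0 ≤ C := by positivity
      have h4 : 3 * C / ε ≤ u := by
        refine le_of_sq_le_sq ?_ hu0.le
        rw [sq u, hu2]
        exact hN₀.trans (by exact_mod_cast hN)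
      rw [div_le_iff₀ hε] at h4
      rw [div_le_iff₀ (by linarith), ← hu2]
      calc C * (R : ℝ) ^ (6 * m) ≤ C * u := by gcongr
        _ ≤ ε / 3 * u * u := by gcongr; linarith
        _ = _ := by ring
    linarith

theorem pse2 : Pse2Stmt := by
  intro κ _ _ _ e he
  obtain ⟨η, h0, h1, h⟩ := pse3 κ e he
  refine ⟨η, h0, h1, fun ε hε => ?_⟩
  obtain ⟨w, N₀, h⟩ := h η h0 le_rfl ε hε
  refine ⟨w, N₀, fun N _ hN hu b => ?_⟩
  obtain ⟨ν, h2, h3, h4⟩ := h N hN hu b
  exact ⟨ν, h2, fun n hp hlt => h3 n fun p hp' hd =>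
    (Nat.prime_dvd_prime_iff_eq hp' hp).1 hd ▸ hlt, h4⟩

end Pool.Agent.MP_a43263_nt.GT.Sel
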